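import Pool.Agent.Helper13_FK.Stmts

/-! Module EX2 of squad FK: almost all elements have no large squares. -/

set_option autoImplicit false

namespace Pool.Agent.FK.H19

open NumberField Module

/-- power saving -/
def PS {X : Type} (n : ℝ) (S : ℕ → Set X) : Prop :=
  ∃ η : ℝ, 0 < η ∧ ∃ C : ℝ, ∀ H : ℕ, 1 ≤ H → ((S H).ncard : ℝ) ≤ C * (H : ℝ) ^ (n - η)

theorem PS.iUnion {X Q : Type} [Fintype Q] {n : ℝ} {S : Q → ℕ → Set X} (h : ∀ q, PS n (S q)) :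
    PS n (fun H => ⋃ q, S q H) := by
  choose η hη C hC using h
  rcases isEmpty_or_nonempty Q with hQ | hQ
  · refine ⟨1, one_pos, 0, fun H _ => ?_⟩
    have h0 : (⋃ q, S q H) = ∅ := Set.iUnion_of_empty _
    show ((⋃ q, S q H).ncard : ℝ) ≤ _
    rw [h0, Set.ncard_empty]
    simp
  · obtain ⟨q₀, hq₀⟩ := Finite.exists_min η
    refine ⟨η q₀, hη q₀, ∑ q, |C q|, fun H hH => ?_⟩
    have hH1 : (1 : ℝ) ≤ H := by exact_mod_cast hH
    calc ((⋃ q, S q H).ncard : ℝ) ≤ ((∑ q, (S q H).ncard : ℕ) : ℝ) := by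
          exact_mod_cast Set.ncard_iUnion_le_of_fintype fun q => S q H
      _ = ∑ q, ((S q H).ncard : ℝ) := by push_cast; rfl
      _ ≤ ∑ q, |C q| * (H : ℝ) ^ (n - η q₀) := by
          refine Finset.sum_le_sum fun q _ => (hC q H hH).trans ?_
          refine mul_le_mul (le_abs_self _) ?_ (by positivity) (abs_nonneg _)
          exact Real.rpow_le_rpow_of_exponent_le hH1 (by linarith [hq₀ q])
      _ = _ := by rw [Finset.sum_mul]

theorem PS.mono {X : Type} {n : ℝ} {S T : ℕ → Set X} (hT : PS n T) (hf : ∀ H, (T H).Finite)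
    (h : ∀ H, 1 ≤ H → S H ⊆ T H) : PS n S := by
  obtain ⟨η, hη, C, hC⟩ := hT
  refine ⟨η, hη, C, fun H hH => le_trans ?_ (hC H hH)⟩
  exact_mod_cast Set.ncard_le_ncard (h H hH) (hf H)

/-- a product with a box -/
theorem PS.prod {X Y Z : Type} {n m : ℝ} {k : ℕ} {S : ℕ → Set X} {T : ℕ → Set Y}
    {U : ℕ → Set Z} (hm : m = n + k) (hS : PS n S) (hSf : ∀ H, (S H).Finite)
    (hTf : ∀ H, (T H).Finite)
    (hT : ∀ H : ℕ, ((T H).ncard : ℝ) ≤ (2 * (H : ℝ) + 1) ^ k) (f : Z → X × Y)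
    (hf : Function.Injective f) (h : ∀ H, ∀ z ∈ U H, f z ∈ S H ×ˢ T H) : PS m U := by
  obtain ⟨η, hη, C, hC⟩ := hS
  refine ⟨η, hη, |C| * 3 ^ k, fun H hH => ?_⟩
  have hH1 : (1 : ℝ) ≤ H := by exact_mod_cast hH
  have h1 : (U H).ncard ≤ (S H ×ˢ T H).ncard :=
    Set.ncard_le_ncard_of_injOn f (h H) hf.injOn ((hSf H).prod (hTf H))
  rw [Set.ncard_prod] at h1
  calc ((U H).ncard : ℝ) ≤ ((S H).ncard : ℝ) * ((T H).ncard : ℝ) := by exact_mod_cast h1
    _ ≤ (|C| * (H : ℝ) ^ (n - η)) * (3 * (H : ℝ)) ^ k := by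
        refine mul_le_mul ((hC H hH).trans ?_) ((hT H).trans ?_) (by positivity) (by positivity)
        · exact mul_le_mul_of_nonneg_right (le_abs_self _) (by positivity)
        · exact pow_le_pow_left₀ (by positivity) (by linarith) k
    _ = |C| * 3 ^ k * (H : ℝ) ^ (m - η) := by
        have h2 : (H : ℝ) ^ (m - η) = (H : ℝ) ^ (n - η) * (H : ℝ) ^ k := by
          rw [hm, show n + (k : ℝ) - η = (n - η) + k by ring, Real.rpow_add (by linarith),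
            Real.rpow_natCast]
        rw [h2, mul_pow]
        ring

variable {ι : Type} [Fintype ι] (K : ι → Type) [∀ a, Field (K a)] [∀ a, NumberField (K a)]

/-- the restriction to the other components -/
def res (P : ι → Prop) (e : RR K) : RR (fun c : {c // P c} => K c.1) := fun c => e c.1

omit [Fintype ι] [∀ a, NumberField (K a)] in
theorem res_box {P : ι → Prop} {H : ℝ} {e : RR K} (h : e ∈ Box K H) :
    res K P e ∈ Box (fun c : {c // P c} => K c.1) H := fun i => h ⟨i.1.1, i.2⟩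

theorem fin_one (hbox : BoxStmt) (L : Type) [Field L] [NumberField L] (R : ℝ) (hR : 0 ≤ R) :
    {x : 𝓞 L | ∀ σ : L →+* ℂ, ‖σ (x : L)‖ ≤ R}.Finite := by
  have h := ((hbox Unit (fun _ => L)).1 R hR).1
  have h2 : {x : 𝓞 L | ∀ σ : L →+* ℂ, ‖σ (x : L)‖ ≤ R} =
      (fun x : 𝓞 L => (fun _ => x : RR (fun _ : Unit => L))) ⁻¹' Box (fun _ : Unit => L) R := by
    ext x
    constructor
    · intro hx i
      exact hx i.2
    · intro hx σ
      exact hx ⟨(), σ⟩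
  rw [h2]
  refine h.preimage (Function.Injective.injOn fun x y hxy => ?_)
  exact congrFun hxy ()

theorem card_emb : Fintype.card (Emb K) = ∑ a, finrank ℚ (K a) := by
  rw [Fintype.card_sigma]
  exact Finset.sum_congr rfl fun a _ => NumberField.Embeddings.card (K a) ℂ

theorem card_res (P : ι → Prop) [DecidablePred P] : Fintype.card (Emb (fun c : {c // P c} => K c.1)) =
    ∑ c ∈ Finset.univ.filter P, finrank ℚ (K c) := by
  rw [card_emb (fun c : {c // P c} => K c.1)]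
  exact (Finset.sum_subtype (Finset.univ.filter P) (by simp) fun c => finrank ℚ (K c)).symm

theorem own_piece (hown : OwnStmt) (hbox : BoxStmt) (B : ℕ → ValuationSubring ℂ) (v : RR K)
    (δ : ℝ) (hB : GoodB B) (hv : Function.Injective (cj K v)) (hδ : 0 < δ) (hδ1 : δ < 1)
    (a : ι) (σ τ : K a →+* ℂ) :
    PS (Fintype.card (Emb K) : ℝ) fun H : ℕ => {e : RR K | e ∈ Box K H ∧ ∃ p : ℕ, p.Prime ∧
      (H : ℝ) ^ (1 - δ) < p ∧ (p : ℝ) ≤ (H : ℝ) ^ ((finrank ℚ (K a) : ℝ) / 2 - δ) ∧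
      (B p).valuation (cj K v ⟨a, σ⟩ - cj K v ⟨a, τ⟩) = 1 ∧
      (B p).valuation (cj K e ⟨a, σ⟩ - cj K e ⟨a, τ⟩) ≤ (B p).valuation (p : ℂ) ^ 2} := by
  classical
  obtain ⟨η, hη, C, hC⟩ := hown B hB (K a) (v a) (fun s t h => by
    have h1 : (⟨a, s⟩ : Emb K) = ⟨a, t⟩ := hv h
    simpa using h1) δ hδ hδ1
  have hcard : (Fintype.card (Emb K) : ℝ) = (finrank ℚ (K a) : ℝ) +
      (Fintype.card (Emb (fun c : {c // c ≠ a} => K c.1)) : ℕ) := by
    rw [card_res K (fun c => c ≠ a), card_emb K,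
      ← Finset.sum_filter_add_sum_filter_not Finset.univ (fun c => c ≠ a)]
    have h1 : Finset.univ.filter (fun c : ι => ¬ c ≠ a) = {a} := by
      ext c
      simp
    rw [h1, Finset.sum_singleton]
    push_cast
    ring
  have hfin : ∀ H : ℕ, {x : 𝓞 (K a) | ∀ σ : K a →+* ℂ, ‖σ (x : K a)‖ ≤ (H : ℝ)}.Finite :=
    fun H => fin_one hbox (K a) H (by positivity)
  refine PS.prod (S := fun H : ℕ => {x : 𝓞 (K a) | (∀ σ : K a →+* ℂ, ‖σ (x : K a)‖ ≤ (H : ℝ)) ∧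
      ∃ p : ℕ, p.Prime ∧ (H : ℝ) ^ (1 - δ) < p ∧
      (p : ℝ) ≤ (H : ℝ) ^ ((finrank ℚ (K a) : ℝ) / 2 - δ) ∧
      ∃ σ τ : K a →+* ℂ, (B p).valuation (σ (v a : K a) - τ (v a : K a)) = 1 ∧
        (B p).valuation (σ (x : K a) - τ (x : K a)) ≤ (B p).valuation (p : ℂ) ^ 2})
    (T := fun H : ℕ => Box (fun c : {c // c ≠ a} => K c.1) H) hcard
    ⟨η, hη, C, fun H hH => hC H (by exact_mod_cast hH)⟩
    (fun H => (hfin H).subset fun x hx => hx.1)
    (fun H => ((hbox _ (fun c : {c // c ≠ a} => K c.1)).1 H (by positivity)).1)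
    (fun H => ((hbox _ (fun c : {c // c ≠ a} => K c.1)).1 H (by positivity)).2)
    (fun e => (e a, res K (fun c => c ≠ a) e)) ?_ ?_
  · intro e e' h
    funext c
    by_cases hc : c = a
    · subst hc
      exact congrArg Prod.fst h
    · exact congrFun (congrArg Prod.snd h) ⟨c, hc⟩
  · rintro H e ⟨he, p, hp, h1, h2, h3, h4⟩
    exact ⟨⟨fun s => he ⟨a, s⟩, p, hp, h1, h2, σ, τ, h3, h4⟩, res_box K he⟩

theorem crs_piece (hcrs : CrsStmt) (hbox : BoxStmt) (B : ℕ → ValuationSubring ℂ)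
    (δ : ℝ) (hB : GoodB B) (hδ : 0 < δ) (hδ1 : δ < 1)
    (a b : ι) (hab : a ≠ b) (σ : K a →+* ℂ) (τ : K b →+* ℂ) :
    PS (Fintype.card (Emb K) : ℝ) fun H : ℕ => {e : RR K | e ∈ Box K H ∧ ∃ p : ℕ, p.Prime ∧
      (H : ℝ) ^ (1 - δ) < p ∧ (p : ℝ) ≤ (H : ℝ) ^ ((finrank ℚ (K b) : ℝ) - δ) ∧
      (B p).valuation (cj K e ⟨a, σ⟩ - cj K e ⟨b, τ⟩) ≤ (B p).valuation (p : ℂ) ^ 2} := by
  classical
  obtain ⟨η, hη, C, hC⟩ := hcrs B hB (K a) (K b) δ hδ hδ1
  have hcard : (Fintype.card (Emb K) : ℝ) = ((finrank ℚ (K a) : ℝ) + (finrank ℚ (K b) : ℝ)) +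
      (Fintype.card (Emb (fun c : {c // c ≠ a ∧ c ≠ b} => K c.1)) : ℕ) := by
    rw [card_res K (fun c => c ≠ a ∧ c ≠ b), card_emb K,
      ← Finset.sum_filter_add_sum_filter_not Finset.univ (fun c => c ≠ a ∧ c ≠ b)]
    have h1 : Finset.univ.filter (fun c : ι => ¬ (c ≠ a ∧ c ≠ b)) = {a, b} := by
      ext c
      simp only [Finset.mem_filter, Finset.mem_univ, true_and, Finset.mem_insert,
        Finset.mem_singleton]
      tauto
    rw [h1, Finset.sum_pair hab]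
    push_cast
    ring
  have hfin : ∀ (L : Type) [Field L] [NumberField L] (H : ℕ),
      {x : 𝓞 L | ∀ σ : L →+* ℂ, ‖σ (x : L)‖ ≤ (H : ℝ)}.Finite :=
    fun L _ _ H => fin_one hbox L H (by positivity)
  refine PS.prod (S := fun H : ℕ => {x : 𝓞 (K a) × 𝓞 (K b) |
      (∀ σ : K a →+* ℂ, ‖σ (x.1 : K a)‖ ≤ (H : ℝ)) ∧
      (∀ τ : K b →+* ℂ, ‖τ (x.2 : K b)‖ ≤ (H : ℝ)) ∧ ∃ p : ℕ, p.Prime ∧ (H : ℝ) ^ (1 - δ) < p ∧
      (p : ℝ) ≤ (H : ℝ) ^ ((finrank ℚ (K b) : ℝ) - δ) ∧ ∃ (σ : K a →+* ℂ) (τ : K b →+* ℂ),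
        (B p).valuation (σ (x.1 : K a) - τ (x.2 : K b)) ≤ (B p).valuation (p : ℂ) ^ 2})
    (T := fun H : ℕ => Box (fun c : {c // c ≠ a ∧ c ≠ b} => K c.1) H) hcard
    ⟨η, hη, C, fun H hH => hC H (by exact_mod_cast hH)⟩
    (fun H => ((hfin (K a) H).prod (hfin (K b) H)).subset fun x hx => ⟨hx.1, hx.2.1⟩)
    (fun H => ((hbox _ (fun c : {c // c ≠ a ∧ c ≠ b} => K c.1)).1 H (by positivity)).1)
    (fun H => ((hbox _ (fun c : {c // c ≠ a ∧ c ≠ b} => K c.1)).1 H (by positivity)).2)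
    (fun e => ((e a, e b), res K (fun c => c ≠ a ∧ c ≠ b) e)) ?_ ?_
  · intro e e' h
    have h0 := congrArg Prod.fst h
    funext c
    by_cases hc : c = a
    · subst hc
      exact congrArg Prod.fst h0
    · by_cases hc' : c = b
      · subst hc'
        exact congrArg Prod.snd h0
      · exact congrFun (congrArg Prod.snd h) ⟨c, hc, hc'⟩
  · rintro H e ⟨he, p, hp, h1, h2, h4⟩
    exact ⟨⟨fun s => he ⟨a, s⟩, fun s => he ⟨b, s⟩, p, hp, h1, h2, σ, τ, h4⟩, res_box K he⟩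

theorem ex2 (hown : OwnStmt) (hcrs : CrsStmt) (hbox : BoxStmt) : Ex2Stmt := by
  intro ι _ K _ _ n B v δ hB hn hv hδ hδ1
  have hfin : ∀ H : ℕ, (Box K H).Finite := fun H => ((hbox ι K).1 H (by positivity)).1
  have key : ∀ q : Emb K × Emb K, PS (Fintype.card (Emb K) : ℝ) fun H : ℕ =>
      {e : RR K | e ∈ Box K H ∧ ∃ p : ℕ, p.Prime ∧ (H : ℝ) ^ (1 - δ) < p ∧
      (B p).valuation (cj K v q.1 - cj K v q.2) = 1 ∧
      (B p).valuation (cj K e q.1 - cj K e q.2) ≤ (B p).valuation (p : ℂ) ^ 2 ∧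
      ((q.1.1 = q.2.1 ∧ (p : ℝ) ≤ (H : ℝ) ^ ((finrank ℚ (K q.1.1) : ℝ) / 2 - δ)) ∨
        (q.1.1 ≠ q.2.1 ∧ (p : ℝ) ≤
          (H : ℝ) ^ ((max (finrank ℚ (K q.1.1)) (finrank ℚ (K q.2.1)) : ℕ) - δ : ℝ)))} := by
    rintro ⟨⟨a, σ⟩, ⟨b, τ⟩⟩
    by_cases hab : a = b
    · subst hab
      refine (own_piece K hown hbox B v δ hB hv hδ hδ1 a σ τ).mono
        (fun H => (hfin H).subset fun e he => he.1) fun H hH e he => ?_
      obtain ⟨he0, p, hp, h1, h2, h3, h4⟩ := he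
      rcases h4 with ⟨_, h4⟩ | ⟨h4, _⟩
      · exact ⟨he0, p, hp, h1, h4, h2, h3⟩
      · exact absurd rfl h4
    · rcases le_total (finrank ℚ (K a)) (finrank ℚ (K b)) with hle | hle
      · refine (crs_piece K hcrs hbox B δ hB hδ hδ1 a b hab σ τ).mono
          (fun H => (hfin H).subset fun e he => he.1) fun H hH e he => ?_
        obtain ⟨he0, p, hp, h1, h2, h3, h4⟩ := he
        rcases h4 with ⟨h4, _⟩ | ⟨_, h4⟩
        · exact absurd h4 hab
        · refine ⟨he0, p, hp, h1, ?_, h3⟩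
          rw [max_eq_right hle] at h4
          exact h4
      · refine (crs_piece K hcrs hbox B δ hB hδ hδ1 b a (Ne.symm hab) τ σ).mono
          (fun H => (hfin H).subset fun e he => he.1) fun H hH e he => ?_
        obtain ⟨he0, p, hp, h1, h2, h3, h4⟩ := he
        rcases h4 with ⟨h4, _⟩ | ⟨_, h4⟩
        · exact absurd h4 hab
        · refine ⟨he0, p, hp, h1, ?_, ?_⟩
          · rw [max_eq_left hle] at h4
            exact h4
          · rw [Valuation.map_sub_swap]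
            exact h3
  have h := PS.mono (S := fun H : ℕ => {e : RR K | e ∈ Box K H ∧ ∃ p : ℕ, p.Prime ∧
      (H : ℝ) ^ (1 - δ) < p ∧ ∃ i j : Emb K,
      (B p).valuation (cj K v i - cj K v j) = 1 ∧
      (B p).valuation (cj K e i - cj K e j) ≤ (B p).valuation (p : ℂ) ^ 2 ∧
      ((i.1 = j.1 ∧ (p : ℝ) ≤ (H : ℝ) ^ ((finrank ℚ (K i.1) : ℝ) / 2 - δ)) ∨
        (i.1 ≠ j.1 ∧ (p : ℝ) ≤
          (H : ℝ) ^ ((max (finrank ℚ (K i.1)) (finrank ℚ (K j.1)) : ℕ) - δ : ℝ)))})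
    (PS.iUnion key) (fun H => (hfin H).subset (Set.iUnion_subset fun q e he => he.1))
    fun H hH e he => by
      obtain ⟨he0, p, hp, h1, i, j, h2, h3, h4⟩ := he
      exact Set.mem_iUnion.mpr ⟨(i, j), he0, p, hp, h1, h2, h3, h4⟩
  rw [hn] at h
  exact h

end Pool.Agent.FK.H19
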